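import Pool.Agent.H24.KN.Rkc
import Pool.Agent.H24.RC.LowN
import Pool.Agent.H24.RC.LbS
import Pool.Agent.H32.KF.Star

/-!
# [H86 KN N1] K3 fibrations (MP_e49dc9_ag, think 1285 (1'')): classes `D` in the tangent cone of `F` with `T(F,D,A) > 0`

`n1`: `F` integral and nef, `F . F = 0`, the class of a pencil, (MI), `D` in the tangent cone of `F`, `T(F,D,A) > 0`, `T(F,D,D) ≥ 0`, and `T(F,D,D) > 0` or
`T(D,D,D) ≥ 0`: then `D + K F` is nef for some `K`.

PROOF.
* `low_dm`: `V + t F`, `V + (t + 1) F` ample: for `n ≥ n₀` and all `m ≤ n t`: `h⁰(n V + m F) ≥ χ(n V + m F)`.  For `m ↦ h⁰(n V + m F) - χ(n V + m F)` is a convex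
  function of the integer `m` (`dif_mono`), with the value `0` at `n t` and at `n (t + 1)`.
* `step`: so if `T(V,V,V) + 3 s T(V,V,F) > 0` then `n (V + s F)` has a section, and by (MI) `V + (s + M T(A,V,F)) F` is nef.
* `n1`: `D` is the limit of classes `u = V / N`, `u - D` ample of size `ε`: `T(u,u,u) ≥ - B ε`, `T(F,u,u) ≥ 2 ε T(F,D,A)`.
-/

set_option autoImplicit false

namespace Pool.Agent.H86.KN

open Pool.Agent.H54.RV Pool.Agent.H83.TU Pool.Agent.H83.TK Pool.Agent.H20.TD Pool.Agent.H20.TP Pool.Agent.H20.RT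
open Pool.Agent.H24.VP (RR chS chi)
open Pool.Agent.H32.KF (Pcl l_zpow)
open Pool.Agent.H24.KN (dif_mono)
open Pool.Agent.H24.RC (eps_nn ball_bd)

variable {k K : Type} [Field k] [Field K] [Algebra k K] {X : Mod k K} {r : ℕ}
  {ν : Cart X →* Multiplicative (Fin r → ℤ)} {T : Cart X → Cart X → Cart X → ℝ} {l : Cart X → ℝ} {c : ℝ} {TR : Tri3 r}
  {A F : Cart X} {s₀ s₁ : K}

private theorem cRm (U V : Cart X) : cR ν (U * V) = cR ν U + cR ν V := by
  change rv (ci ν (U * V)) = _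
  rw [ci_mul, rv_add]

/-- a convex function of an integer with two zeros is nonnegative on the left of the first zero -/
private theorem convex_nn {g : ℤ → ℝ} (hg : ∀ m, 2 * g (m + 1) ≤ g (m + 2) + g m) {p q : ℤ} (hpq : p < q) (hp : g p = 0)
    (hq : g q = 0) (m : ℤ) (hm : m ≤ p) : 0 ≤ g m := by
  -- the differences do not decrease
  have hmono : ∀ (i : ℤ) (j : ℕ), g (i + 1) - g i ≤ g (i + j + 1) - g (i + j) := by
    intro i j
    induction j with
    | zero => simp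
    | succ j ih =>
      have h1 := hg (i + j)
      have e1 : i + ((j + 1 : ℕ) : ℤ) + 1 = i + j + 2 := by push_cast; ring
      have e2 : i + ((j + 1 : ℕ) : ℤ) = i + j + 1 := by push_cast; ring
      rw [e1, e2]
      linarith
  -- sums of differences
  have hup : ∀ (i : ℤ) (j : ℕ), g i + j * (g (i + 1) - g i) ≤ g (i + j) := by
    intro i j
    induction j with
    | zero => simp
    | succ j ih =>
      have h1 := hmono i j
      have e1 : i + ((j + 1 : ℕ) : ℤ) = i + j + 1 := by push_cast; ring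
      rw [e1]
      push_cast
      linarith
  obtain ⟨n, hn⟩ := Int.eq_ofNat_of_zero_le (sub_nonneg.2 hpq.le)
  have hn0 : 0 < n := by omega
  have hqn : q = p + n := by omega
  have h2 : g (p + 1) - g p ≤ 0 := by
    have h3 := hup p n
    rw [← hqn, hp, hq, zero_add] at h3
    have h4 : (0 : ℝ) < n := by exact_mod_cast hn0
    rw [hp]
    by_contra h5
    push Not at h5
    have := mul_pos h4 h5
    linarith
  obtain ⟨j, hj⟩ := Int.eq_ofNat_of_zero_le (sub_nonneg.2 hm)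
  have hpj : p = m + j := by omega
  -- downwards
  have hdown : ∀ i : ℕ, 0 ≤ g (p - i) := by
    intro i
    induction i with
    | zero => simp [hp]
    | succ i ih =>
      have h3 := hmono (p - (i + 1 : ℕ)) (i + 1)
      have e1 : p - ((i + 1 : ℕ) : ℤ) + 1 = p - i := by push_cast; ring
      have e2 : p - ((i + 1 : ℕ) : ℤ) + ((i + 1 : ℕ) : ℤ) = p := by ring
      rw [e1, e2] at h3
      linarith
  have h6 := hdown j
  rwa [hpj, add_sub_cancel_right] at h6

/-- **the lower bound on the left of the ample classes** -/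
theorem low_dm [CharZero k] [T0Space X.P] (h : Hyp X) (hr : RR T l c) (hP : Pcl F s₀ s₁) (hFF : ∀ U, T F F U = 0)
    {V : Cart X} {t : ℤ} (h1 : Ample (V * F ^ t)) (h2 : Ample (V * F ^ (t + 1))) :
    ∃ n₀ : ℕ, ∀ n : ℕ, n₀ ≤ n → ∀ m : ℤ, m ≤ n * t → chi T l c (V ^ n * F ^ m) ≤ h0 (V ^ n * F ^ m) 1 := by
  obtain ⟨n1, hn1⟩ := hr.ev 1 _ h1
  obtain ⟨n2, hn2⟩ := hr.ev 1 _ h2
  refine ⟨max 1 (max n1 n2), fun n hn m hm => ?_⟩
  simp only [max_le_iff] at hn
  obtain ⟨hn0, hn1', hn2'⟩ := hn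
  have a1 := hn1 n hn1'
  have a2 := hn2 n hn2'
  have e1 : ∀ t : ℤ, (V * F ^ t) ^ n = V ^ n * F ^ ((n : ℤ) * t) := fun t => by
    rw [mul_pow, ← zpow_natCast (F ^ t), ← zpow_mul, mul_comm t]
  rw [one_mul, e1] at a1 a2
  have ht := hr.tri
  have hchi : ∀ m : ℤ, chi T l c (V ^ n * F ^ m) = chi T l c (V ^ n) + m * (T (V ^ n) (V ^ n) F / 2 + l F) := by
    intro m
    unfold chi
    have e2 : T (V ^ n) F (V ^ n) = T (V ^ n) (V ^ n) F := ht.s23 _ _ _
    have e3 : T F (V ^ n) (V ^ n) = T (V ^ n) (V ^ n) F := by rw [ht.s12, e2]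
    have e4 : T F (V ^ n) F = 0 := by rw [ht.s23, hFF]
    have e5 : T (V ^ n) F F = 0 := by rw [ht.s12, e4]
    rw [hr.ladd, l_zpow hr]
    simp only [ht.add, ht.add2, ht.add3, ht.zpow, ht.zpow2, ht.zpow3, hFF, e2, e3, e4, e5]
    ring
  obtain ⟨g, hg⟩ : ∃ g : ℤ → ℝ, g = fun m => (h0 (V ^ n * F ^ m) 1 : ℝ) - chi T l c (V ^ n * F ^ m) := ⟨_, rfl⟩
  have hcv : ∀ m, 2 * g (m + 1) ≤ g (m + 2) + g m := by
    intro m
    have := Pool.Agent.H24.TK.fd h.var h.gen h1 (V ^ n * F ^ m)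
    have := Pool.Agent.H24.TK.fd h.var h.gen h1 (V ^ n * F ^ m * F)
    have := Pool.Agent.H24.TK.fd h.var h.gen h1 (V ^ n * F ^ m * F * F)
    have h3 := dif_mono hP (V ^ n * F ^ m)
    have e2 : V ^ n * F ^ m * F = V ^ n * F ^ (m + 1) := by rw [zpow_add_one, mul_assoc]
    have e3 : V ^ n * F ^ m * F * F = V ^ n * F ^ (m + 2) := by
      rw [e2, mul_assoc, ← zpow_add_one]
      congr 2
      ring
    rw [e3, e2] at h3
    have h4 : 2 * (h0 (V ^ n * F ^ (m + 1)) 1 : ℝ) ≤ h0 (V ^ n * F ^ (m + 2)) 1 + h0 (V ^ n * F ^ m) 1 := by exact_mod_cast h3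
    rw [hg]
    simp only [hchi]
    push_cast
    linarith
  have h5 := convex_nn hcv (p := (n : ℤ) * t) (q := (n : ℤ) * (t + 1)) (by
      have : (0 : ℤ) < n := by exact_mod_cast hn0
      nlinarith) (by rw [hg]; simp only [a1, sub_self]) (by rw [hg]; simp only [a2, sub_self]) m hm
  rw [hg] at h5
  simp only at h5
  linarith

/-- a cubic polynomial in `n` -/
private theorem cub_pos {a : ℝ} (ha : 0 < a) (b c : ℝ) : ∃ n₀ : ℕ, ∀ n : ℕ, n₀ ≤ n → 0 < (n : ℝ) ^ 3 * a + n * b + c := by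
  obtain ⟨N, hN⟩ := exists_nat_gt ((|b| + |c| + 1) / a)
  rw [div_lt_iff₀ ha] at hN
  refine ⟨max 1 N, fun n hn => ?_⟩
  rw [max_le_iff] at hn
  have h1 : (1 : ℝ) ≤ n := by exact_mod_cast hn.1
  have h2 : (N : ℝ) ≤ n := by exact_mod_cast hn.2
  have h3 : |b| + |c| + 1 < n * a := lt_of_lt_of_le hN (mul_le_mul_of_nonneg_right h2 ha.le)
  have h4 := neg_abs_le b
  have h5 := neg_abs_le c
  have h6 : (n : ℝ) * (|b| + |c| + 1) ≤ n ^ 3 * a := by
    have h7 : (n : ℝ) * (|b| + |c| + 1) ≤ n * (n * a) := mul_le_mul_of_nonneg_left h3.le (by linarith)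
    have h8 : (n : ℝ) * (n * a) * 1 ≤ n * (n * a) * n := mul_le_mul_of_nonneg_left h1 (by positivity)
    calc (n : ℝ) * (|b| + |c| + 1) ≤ n * (n * a) := h7
      _ ≤ n ^ 3 * a := by linarith
  have h9 : (n : ℝ) * -|b| ≤ n * b := mul_le_mul_of_nonneg_left h4 (by linarith)
  have h10 : 1 * |c| ≤ n * |c| := mul_le_mul_of_nonneg_right h1 (abs_nonneg c)
  linarith

/-- **integral classes** -/
theorem step [CharZero k] [IsAlgClosed k] [T0Space X.P] (h : Hyp X) (hr : RR T l c) (hν : NumR ν)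
    (hP : Pcl F s₀ s₁) (hF : ∀ B : Cart X, Ample B → Ample (B * F)) (hFF : ∀ U, T F F U = 0) {M : ℝ}
    (hMI : ∀ U : Cart X, (∃ t0 : ℝ, cR ν U + t0 • cR ν F ∈ closure (CC ν)) → ∀ s : ℤ,
      0 < h0 (U * F ^ s) 1 → cR ν U + ((s : ℝ) + M * T A U F) • cR ν F ∈ closure (CC ν))
    {V : Cart X} {t s : ℤ} (h1 : Ample (V * F ^ t)) (h2 : 0 < T V V V + 3 * s * T V V F) :
    cR ν V + ((s : ℝ) + M * T A V F) • cR ν F ∈ closure (CC ν) := by
  have hup : ∀ j : ℕ, Ample (V * F ^ (t + j)) := by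
    intro j
    induction j with
    | zero => simpa using h1
    | succ j ih =>
      have h3 := hF _ ih
      rw [mul_assoc, ← zpow_add_one] at h3
      have e1 : t + ((j + 1 : ℕ) : ℤ) = t + j + 1 := by push_cast; ring
      rw [e1]
      exact h3
  obtain ⟨j, hj⟩ : ∃ j : ℕ, s ≤ t + j := ⟨(s - t).toNat, by have := Int.self_le_toNat (s - t); omega⟩
  obtain ⟨n₀, hn₀⟩ := low_dm h hr hP hFF (hup j) (by
    have := hup (j + 1)
    rwa [show t + ((j + 1 : ℕ) : ℤ) = t + j + 1 by push_cast; ring] at this)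
  have ht := hr.tri
  obtain ⟨Y, hY⟩ : ∃ Y, Y = V * F ^ s := ⟨_, rfl⟩
  have hY3 : T Y Y Y = T V V V + 3 * s * T V V F := by
    have e2 : T V F V = T V V F := ht.s23 _ _ _
    have e3 : T F V V = T V V F := by rw [ht.s12, e2]
    have e4 : T F V F = 0 := by rw [ht.s23, hFF]
    have e5 : T V F F = 0 := by rw [ht.s12, e4]
    rw [hY]
    simp only [ht.add, ht.add2, ht.add3, ht.zpow, ht.zpow2, ht.zpow3, hFF, e2, e3, e4, e5]
    ring
  obtain ⟨n₁, hn₁⟩ := cub_pos (show 0 < T Y Y Y / 6 by rw [hY3]; linarith) (l Y) c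
  obtain ⟨n, hn⟩ : ∃ n, n = max 1 (max n₀ n₁) := ⟨_, rfl⟩
  have hn1 : 1 ≤ n := by rw [hn]; exact le_max_left _ _
  have hn2 : n₀ ≤ n := by rw [hn]; exact (le_max_left _ _).trans (le_max_right _ _)
  have hn3 : n₁ ≤ n := by rw [hn]; exact (le_max_right _ _).trans (le_max_right _ _)
  have hnp : (0 : ℝ) < n := by exact_mod_cast hn1
  have hYn : V ^ n * F ^ ((n : ℤ) * s) = Y ^ n := by
    rw [hY, mul_pow, ← zpow_natCast (F ^ s), ← zpow_mul, mul_comm s]
  have h3 := hn₀ n hn2 ((n : ℤ) * s) (mul_le_mul_of_nonneg_left hj (Int.natCast_nonneg n))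
  rw [hYn] at h3
  have h4 : 0 < chi T l c (Y ^ n) := by
    have := hn₁ n hn3
    unfold chi
    rw [ht.pow, ht.pow2, ht.pow3, hr.l_pow]
    linarith
  have h5 : 0 < h0 (V ^ n * F ^ ((n : ℤ) * s)) 1 := by
    rw [hYn]
    have : (0 : ℝ) < h0 (Y ^ n) 1 := lt_of_lt_of_le h4 h3
    exact_mod_cast this
  have e6 : cR ν (V ^ n) = (n : ℝ) • cR ν V := by
    change rv (ci ν (V ^ n)) = (n : ℝ) • rv (ci ν V)
    rw [ci_pow, rv_smul, Int.cast_natCast]
  have e7 : ∀ i : ℤ, cR ν (F ^ i) = (i : ℝ) • cR ν F := fun i => by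
    change rv (ci ν (F ^ i)) = _
    rw [ci_zpow, rv_smul]
  have hoc := oc_cc (ν := ν) h.var hν
  have hsm : ∀ (a : ℝ), 0 < a → ∀ x ∈ closure (CC ν), a • x ∈ closure (CC ν) := fun a ha x hx =>
    map_mem_closure (continuous_const_smul a) hx fun y hy => hoc.smul a ha y hy
  have h6 := hMI (V ^ n) ⟨n * t, by
    have h7 := subset_closure (cc_amp h.var hν h1)
    have h8 : rv (ci ν (V * F ^ t)) = cR ν V + (t : ℝ) • cR ν F := by
      change cR ν (V * F ^ t) = _
      rw [cRm, e7]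
    rw [h8] at h7
    have h9 := hsm n hnp _ h7
    rw [smul_add, smul_smul, ← e6] at h9
    exact h9⟩ _ h5
  have h7 := hsm (n : ℝ)⁻¹ (inv_pos.2 hnp) _ h6
  rw [e6, ht.pow2] at h7
  convert h7 using 1
  rw [smul_add, smul_smul, smul_smul, inv_mul_cancel₀ hnp.ne', one_smul]
  congr 2
  push_cast
  field_simp

/-- a class in the tangent cone is nonnegative on nef classes -/
private theorem tan_nn [CharZero k] [IsAlgClosed k] [T0Space X.P] (h : Hyp X) (hr : RR T l c) (hν : NumR ν)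
    (hT : ∀ U V W, TR (cR ν U) (cR ν V) (cR ν W) = T U V W)
    (hF : cR ν F ∈ closure (CC ν)) (hsq : TR (cR ν F) (cR ν F) = 0) {D : Fin r → ℝ}
    (hD : ∀ e : ℝ, 0 < e → ∃ t : ℝ, D + e • cR ν A + t • cR ν F ∈ closure (CC ν)) {y : Fin r → ℝ} (hy : y ∈ closure (CC ν)) :
    0 ≤ TR (cR ν F) D y := by
  refine eps_nn (b := TR (cR ν F) (cR ν A) y) fun e he => ?_
  obtain ⟨t, ht⟩ := hD e he
  have h1 := tr_nn h hr hν hT hF ht hy
  simp only [map_add, map_smul, LinearMap.add_apply, LinearMap.smul_apply, smul_eq_mul, hsq, LinearMap.zero_apply] at h1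
  linarith

/-- the case `T(D,D,D) ≥ 0` -/
private theorem n1_core [CharZero k] [IsAlgClosed k] [T0Space X.P] (h : Hyp X) (hr : RR T l c) (hν : NumR ν)
    (hT : ∀ U V W, TR (cR ν U) (cR ν V) (cR ν W) = T U V W) (hA : Ample A) (hP : Pcl F s₀ s₁)
    (hF : cR ν F ∈ closure (CC ν)) (hsq : TR (cR ν F) (cR ν F) = 0)
    (hMI : ∃ M : ℝ, 0 ≤ M ∧ ∀ U : Cart X, (∃ t0 : ℝ, cR ν U + t0 • cR ν F ∈ closure (CC ν)) → ∀ s : ℤ,
      0 < h0 (U * F ^ s) 1 → cR ν U + ((s : ℝ) + M * T A U F) • cR ν F ∈ closure (CC ν))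
    {D : Fin r → ℝ} (hD : ∀ e : ℝ, 0 < e → ∃ t : ℝ, D + e • cR ν A + t • cR ν F ∈ closure (CC ν))
    (hda : 0 < TR (cR ν F) D (cR ν A)) (hdd : 0 ≤ TR (cR ν F) D D) (hddd : 0 ≤ TR D D D) :
    ∃ K : ℝ, D + K • cR ν F ∈ closure (CC ν) := by
  obtain ⟨M, hM, hMI⟩ := hMI
  obtain ⟨f, hf⟩ : ∃ f, f = cR ν F := ⟨_, rfl⟩
  obtain ⟨a, ha⟩ : ∃ a, a = cR ν A := ⟨_, rfl⟩
  have s12 := tr_s12 hr hν hT
  have s23 := tr_s23 hr hν hT
  have hoc := oc_cc (ν := ν) h.var hν
  have hFam : ∀ B : Cart X, Ample B → Ample (B * F) := fun B hB => by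
    apply cc_ample (ν := ν)
    have h1 := hoc.add_cl (cc_amp h.var hν hB) hF
    have h2 : rv (ci ν (B * F)) = rv (ci ν B) + cR ν F := by
      change cR ν (B * F) = cR ν B + _
      rw [cRm]
    rw [h2]
    exact h1
  have hFF : ∀ U, T F F U = 0 := fun U => by
    rw [← hT, hsq, LinearMap.zero_apply]
  have haC : a ∈ CC ν := by rw [ha]; exact cc_amp h.var hν hA
  have htan : ∀ y ∈ closure (CC ν), 0 ≤ TR f D y := fun y hy => by
    rw [hf]
    exact tan_nn h hr hν hT hF hsq hD hy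
  rw [← hf] at hF hsq hda hdd hMI hD ⊢
  rw [← ha] at hda hD
  obtain ⟨q, hq⟩ : ∃ q, q = TR f D a := ⟨_, rfl⟩
  rw [← hq] at hda
  -- a ball around `a`
  obtain ⟨δ₀, hδ₀, hball⟩ := Metric.isOpen_iff.1 (cc_open (ν := ν)) a haC
  obtain ⟨R, hR⟩ : ∃ R : ℝ, R = 2 * ‖a‖ + δ₀ := ⟨_, rfl⟩
  have hR0 : 0 < R := by
    rw [hR]
    have := norm_nonneg a
    linarith
  obtain ⟨B₁, hB₁, b1⟩ := ball_bd (f := fun u => TR D D u) (cont3' TR continuous_const continuous_const continuous_id) R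
  obtain ⟨B₂, hB₂, b2⟩ := ball_bd (f := fun u => TR D u u) (cont3' TR continuous_const continuous_id continuous_id) R
  obtain ⟨B₃, hB₃, b3⟩ := ball_bd (f := fun u => TR u u u) (cont3' TR continuous_id continuous_id continuous_id) R
  obtain ⟨B₄, hB₄, b4⟩ := ball_bd (f := fun u => TR a u f) (cont3' TR continuous_const continuous_id continuous_const) R
  obtain ⟨B, hB⟩ : ∃ B : ℝ, B = 3 * B₁ + 3 * B₂ + B₃ := ⟨_, rfl⟩
  have hB0 : 0 ≤ B := by rw [hB]; positivity
  obtain ⟨Kc, hK⟩ : ∃ Kc : ℝ, Kc = (B / (6 * q) + 1) + M * (|TR a D f| + B₄) := ⟨_, rfl⟩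
  refine ⟨Kc, ?_⟩
  -- the approximation
  have main : ∀ ε : ℝ, 0 < ε → ε ≤ 1 → ∃ u : Fin r → ℝ, ‖u - D‖ ≤ ε * R ∧ u + Kc • f ∈ closure (CC ν) := by
    intro ε hε hε1
    obtain ⟨δ, hδ⟩ : ∃ δ : ℝ, δ = ε * δ₀ / 2 := ⟨_, rfl⟩
    have hδ0 : 0 < δ := by rw [hδ]; positivity
    obtain ⟨N, d, hN0, hNδ, hd⟩ := exists_near (D + (2 * ε) • a) hδ0
    obtain ⟨V, hV⟩ := ci_surj hν d
    have hNp : (0 : ℝ) < N := by exact_mod_cast hN0
    have hN1 : (1 : ℝ) ≤ N := by exact_mod_cast hN0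
    have hVd : cR ν V = rv d := by
      change rv (ci ν V) = _
      rw [hV]
    obtain ⟨w, hw⟩ : ∃ w, w = (N : ℝ)⁻¹ • (rv d - (N : ℝ) • (D + (2 * ε) • a)) := ⟨_, rfl⟩
    have hwn : ‖w‖ ≤ δ := by
      rw [hw, norm_smul, Real.norm_eq_abs, abs_of_pos (inv_pos.2 hNp), inv_mul_le_iff₀ hNp]
      exact hd.trans hNδ
    obtain ⟨u, hu⟩ : ∃ u, u = (N : ℝ)⁻¹ • cR ν V := ⟨_, rfl⟩
    have huw : u = D + (2 * ε) • a + w := by
      rw [hu, hVd, hw, smul_sub, smul_smul, inv_mul_cancel₀ hNp.ne', one_smul]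
      abel
    have hVu : cR ν V = (N : ℝ) • u := by
      rw [hu, smul_smul, mul_inv_cancel₀ hNp.ne', one_smul]
    obtain ⟨e', he'⟩ : ∃ e', e' = (2 : ℝ) • a + ε⁻¹ • w := ⟨_, rfl⟩
    have hue : u = D + ε • e' := by
      rw [huw, he', smul_add, smul_smul, smul_smul, mul_inv_cancel₀ hε.ne', one_smul, mul_comm ε 2]
      abel
    have hwe : ‖ε⁻¹ • w‖ ≤ δ₀ / 2 := by
      rw [norm_smul, Real.norm_eq_abs, abs_of_pos (inv_pos.2 hε), inv_mul_le_iff₀ hε]
      rw [hδ] at hwn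
      linarith
    have he'n : ‖e'‖ ≤ R := by
      rw [he', hR]
      refine (norm_add_le _ _).trans ?_
      rw [norm_smul, Real.norm_eq_abs, abs_two]
      linarith
    -- `e' - a` is ample
    have hea : e' - a ∈ CC ν := by
      apply hball
      rw [Metric.mem_ball, dist_eq_norm, he']
      have : (2 : ℝ) • a + ε⁻¹ • w - a - a = ε⁻¹ • w := by
        rw [two_smul]
        abel
      rw [this]
      linarith
    have hec : e' ∈ CC ν := by
      have := hoc.add _ hea _ haC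
      rwa [sub_add_cancel] at this
    -- the numbers
    have h1 : 2 * ε * q ≤ TR f u u := by
      have h2 := htan _ (subset_closure hea)
      rw [map_sub, ← hq] at h2
      have h3 := tr_nn h hr hν hT hF (subset_closure hec) (subset_closure hec)
      have h4 : TR f u u = TR f D D + 2 * ε * TR f D e' + ε ^ 2 * TR f e' e' := by
        rw [hue]
        simp only [map_add, map_smul, LinearMap.add_apply, LinearMap.smul_apply, smul_eq_mul]
        rw [s23 f e' D]
        ring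
      rw [h4]
      have h5 : 2 * ε * q ≤ 2 * ε * TR f D e' := mul_le_mul_of_nonneg_left (by linarith) (by linarith)
      have h6 : 0 ≤ ε ^ 2 * TR f e' e' := by positivity
      linarith
    have h2 : -(ε * B) ≤ TR u u u := by
      have h4 : TR u u u = TR D D D + 3 * ε * TR D D e' + 3 * ε ^ 2 * TR D e' e' + ε ^ 3 * TR e' e' e' := by
        rw [hue]
        have e1 : TR D e' D = TR D D e' := s23 _ _ _
        have e2 : TR e' D D = TR D D e' := by rw [s12, e1]
        have e3 : TR e' D e' = TR D e' e' := s12 _ _ _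
        have e4 : TR e' e' D = TR D e' e' := by rw [s23, e3]
        simp only [map_add, map_smul, LinearMap.add_apply, LinearMap.smul_apply, smul_eq_mul, e1, e2, e3, e4]
        ring
      have c1 := (abs_le.1 (b1 e' he'n)).1
      have c2 := (abs_le.1 (b2 e' he'n)).1
      have c3 := (abs_le.1 (b3 e' he'n)).1
      have g2 : ε ^ 2 ≤ ε := by nlinarith
      have g3 : ε ^ 3 ≤ ε := by nlinarith
      have d1 : 3 * ε * -B₁ ≤ 3 * ε * TR D D e' := mul_le_mul_of_nonneg_left c1 (by linarith)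
      have d2 : 3 * ε ^ 2 * -B₂ ≤ 3 * ε ^ 2 * TR D e' e' := mul_le_mul_of_nonneg_left c2 (by positivity)
      have d3 : ε ^ 3 * -B₃ ≤ ε ^ 3 * TR e' e' e' := mul_le_mul_of_nonneg_left c3 (by positivity)
      have d4 : ε ^ 2 * B₂ ≤ ε * B₂ := mul_le_mul_of_nonneg_right g2 hB₂
      have d5 : ε ^ 3 * B₃ ≤ ε * B₃ := mul_le_mul_of_nonneg_right g3 hB₃
      rw [h4, hB]
      linarith
    -- ample
    obtain ⟨t, ht⟩ := hD ε hε
    have h3 : u + t • f ∈ CC ν := by
      have h4 := hoc.add_cl (hoc.smul ε hε _ hea) ht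
      have e1 : ε • (e' - a) + (D + ε • a + t • f) = u + t • f := by
        rw [hue, smul_sub]
        abel
      rwa [e1] at h4
    obtain ⟨t', ht'⟩ := exists_int_gt ((N : ℝ) * t)
    have hcz : ∀ i : ℤ, cR ν (V * F ^ i) = (N : ℝ) • u + (i : ℝ) • f := fun i => by
      rw [cRm, hVu]
      congr 1
      change rv (ci ν (F ^ i)) = _
      rw [ci_zpow, rv_smul, hf]
    have hsm : ∀ (b : ℝ), 0 ≤ b → b • f ∈ closure (CC ν) := fun b hb => by
      rcases hb.eq_or_lt with h4 | h4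
      · rw [← h4, zero_smul]
        have h5 : Filter.Tendsto (fun n : ℕ => ((n : ℝ) + 1)⁻¹ • a) Filter.atTop (nhds ((0 : ℝ) • a)) :=
          (tendsto_inv_atTop_zero.comp (Filter.tendsto_atTop_add_const_right _ _ tendsto_natCast_atTop_atTop)).smul_const a
        rw [zero_smul] at h5
        exact mem_closure_of_tendsto h5 (Filter.Eventually.of_forall fun n => hoc.smul _ (by positivity) _ haC)
      · exact map_mem_closure (continuous_const_smul b) hF fun y hy => hoc.smul b h4 y hy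
    have h4 : Ample (V * F ^ t') := by
      apply cc_ample (ν := ν)
      change cR ν (V * F ^ t') ∈ CC ν
      rw [hcz]
      have h5 := hoc.add_cl (hoc.smul N hNp _ h3) (hsm ((t' : ℝ) - N * t) (by linarith))
      have e1 : (N : ℝ) • (u + t • f) + ((t' : ℝ) - N * t) • f = (N : ℝ) • u + (t' : ℝ) • f := by
        rw [smul_add, smul_smul, sub_smul]
        abel
      rwa [e1] at h5
    obtain ⟨s, hs⟩ : ∃ s : ℤ, s = ⌊(N : ℝ) * (B / (6 * q))⌋ + 1 := ⟨_, rfl⟩
    have hs1 : (N : ℝ) * (B / (6 * q)) < s := by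
      rw [hs]
      push_cast
      exact Int.lt_floor_add_one _
    have hs2 : (s : ℝ) ≤ N * (B / (6 * q)) + 1 := by
      rw [hs]
      push_cast
      have := Int.floor_le ((N : ℝ) * (B / (6 * q)))
      linarith
    have h5 : 0 < T V V V + 3 * s * T V V F := by
      rw [← hT, ← hT, hVu, ← hf]
      have e1 : TR ((N : ℝ) • u) ((N : ℝ) • u) f = N ^ 2 * TR f u u := by
        simp only [map_smul, LinearMap.smul_apply, smul_eq_mul]
        rw [s23 u u f, s12 u f u]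
        ring
      have e2 : TR ((N : ℝ) • u) ((N : ℝ) • u) ((N : ℝ) • u) = N ^ 3 * TR u u u := by
        simp only [map_smul, LinearMap.smul_apply, smul_eq_mul]
        ring
      rw [e1, e2]
      have hs0 : (0 : ℝ) < s := lt_of_le_of_lt (by positivity) hs1
      have h6 : N * B < 6 * q * s := by
        have h7 : (N : ℝ) * (B / (6 * q)) = N * B / (6 * q) := by ring
        rw [h7, div_lt_iff₀ (by positivity)] at hs1
        linarith
      have h7 : (N : ℝ) ^ 3 * -(ε * B) ≤ N ^ 3 * TR u u u := mul_le_mul_of_nonneg_left h2 (by positivity)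
      have h8 : 3 * s * (N ^ 2 * (2 * ε * q)) ≤ 3 * s * ((N : ℝ) ^ 2 * TR f u u) :=
        mul_le_mul_of_nonneg_left (mul_le_mul_of_nonneg_left h1 (by positivity)) (by positivity)
      have h9 : (N : ℝ) ^ 2 * ε * (N * B) < N ^ 2 * ε * (6 * q * s) := mul_lt_mul_of_pos_left h6 (by positivity)
      nlinarith
    have h6 := step h hr hν hP hFam hFF (M := M) (A := A) (fun U hU s hs => by
      rw [← hf] at hU ⊢
      exact hMI U hU s hs) h4 h5
    rw [← hf, hVu, ← hT, ← ha, hVu, ← hf] at h6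
    have h7 := map_mem_closure (continuous_const_smul (N : ℝ)⁻¹) h6 fun y hy => hoc.smul _ (inv_pos.2 hNp) y hy
    obtain ⟨κ, hκ⟩ : ∃ κ : ℝ, κ = (N : ℝ)⁻¹ * s + M * TR a u f := ⟨_, rfl⟩
    have h8 : u + κ • f ∈ closure (CC ν) := by
      convert h7 using 1
      rw [smul_add, smul_smul, smul_smul, inv_mul_cancel₀ hNp.ne', one_smul, hκ]
      congr 2
      simp only [map_smul, LinearMap.smul_apply, smul_eq_mul]
      field_simp
    have h9 : κ ≤ Kc := by
      rw [hκ, hK]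
      have g1 : (N : ℝ)⁻¹ * s ≤ B / (6 * q) + 1 := by
        rw [inv_mul_le_iff₀ hNp]
        have : (N : ℝ) * (B / (6 * q) + 1) = N * (B / (6 * q)) + N := by ring
        rw [this]
        linarith
      have g2 : TR a u f ≤ |TR a D f| + B₄ := by
        have e1 : TR a u f = TR a D f + ε * TR a e' f := by
          rw [hue]
          simp only [map_add, map_smul, LinearMap.add_apply, LinearMap.smul_apply, smul_eq_mul]
        rw [e1]
        have g3 := le_abs_self (TR a D f)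
        have g4 := (abs_le.1 (b4 e' he'n)).2
        have g5 : ε * TR a e' f ≤ ε * B₄ := mul_le_mul_of_nonneg_left g4 hε.le
        have g6 : ε * B₄ ≤ 1 * B₄ := mul_le_mul_of_nonneg_right hε1 hB₄
        linarith
      have g3 := mul_le_mul_of_nonneg_left g2 hM
      linarith
    refine ⟨u, ?_, ?_⟩
    · rw [hue, add_sub_cancel_left, norm_smul, Real.norm_eq_abs, abs_of_pos hε]
      exact mul_le_mul_of_nonneg_left he'n hε.le
    · have h11 : u + Kc • f = (u + κ • f) + (Kc - κ) • f := by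
        rw [sub_smul]
        abel
      rw [h11]
      have hadd : ∀ x ∈ closure (CC ν), ∀ y ∈ closure (CC ν), x + y ∈ closure (CC ν) := fun x hx y hy =>
        map_mem_closure₂ continuous_add hx hy fun x hx y hy => hoc.add x hx y hy
      exact hadd _ h8 _ (hsm _ (by linarith))
  -- the limit
  rw [← closure_closure]
  rw [Metric.mem_closure_iff]
  intro e he
  obtain ⟨ε, hε⟩ : ∃ ε : ℝ, ε = min 1 (e / (2 * R)) := ⟨_, rfl⟩
  have hε0 : 0 < ε := by rw [hε]; positivity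
  obtain ⟨u, hu1, hu2⟩ := main ε hε0 (by rw [hε]; exact min_le_left _ _)
  refine ⟨_, hu2, ?_⟩
  rw [dist_eq_norm]
  have h1 : D + Kc • f - (u + Kc • f) = -(u - D) := by abel
  rw [h1, norm_neg]
  have h2 : ε * R ≤ e / (2 * R) * R := mul_le_mul_of_nonneg_right (by rw [hε]; exact min_le_right _ _) hR0.le
  have h3 : e / (2 * R) * R = e / 2 := by field_simp
  linarith

/-- **(N1)** -/
theorem n1 [CharZero k] [IsAlgClosed k] [T0Space X.P] (h : Hyp X) (hr : RR T l c) (hν : NumR ν)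
    (hT : ∀ U V W, TR (cR ν U) (cR ν V) (cR ν W) = T U V W) (hA : Ample A) (hP : Pcl F s₀ s₁)
    (hF : cR ν F ∈ closure (CC ν)) (hsq : TR (cR ν F) (cR ν F) = 0)
    (hMI : ∃ M : ℝ, 0 ≤ M ∧ ∀ U : Cart X, (∃ t0 : ℝ, cR ν U + t0 • cR ν F ∈ closure (CC ν)) → ∀ s : ℤ,
      0 < h0 (U * F ^ s) 1 → cR ν U + ((s : ℝ) + M * T A U F) • cR ν F ∈ closure (CC ν))
    {D : Fin r → ℝ} (hD : ∀ e : ℝ, 0 < e → ∃ t : ℝ, D + e • cR ν A + t • cR ν F ∈ closure (CC ν))
    (hda : 0 < TR (cR ν F) D (cR ν A)) (hdd : 0 ≤ TR (cR ν F) D D) (hddd : 0 < TR (cR ν F) D D ∨ 0 ≤ TR D D D) :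
    ∃ K : ℝ, D + K • cR ν F ∈ closure (CC ν) := by
  rcases hddd with h1 | h1
  · obtain ⟨f, hf⟩ : ∃ f, f = cR ν F := ⟨_, rfl⟩
    have s12 := tr_s12 hr hν hT
    have s23 := tr_s23 hr hν hT
    have hsq' := hsq
    rw [← hf] at h1 hsq'
    obtain ⟨κ, hκ⟩ : ∃ κ : ℝ, κ = |TR D D D| / (3 * TR f D D) := ⟨_, rfl⟩
    have e1 : TR f f D = 0 := by rw [hsq']; rfl
    have e2 : TR f D f = 0 := by rw [s23, e1]
    have e3 : TR D f f = 0 := by rw [s12, e2]
    have e4 : TR f f f = 0 := by rw [hsq']; rfl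
    obtain ⟨K, hK⟩ := n1_core h hr hν hT hA hP hF hsq hMI (D := D + κ • cR ν F) (fun e he => by
      obtain ⟨t, ht⟩ := hD e he
      refine ⟨t - κ, ?_⟩
      rw [sub_smul]
      convert ht using 1
      abel) (by
        rw [map_add, map_smul, LinearMap.add_apply, LinearMap.smul_apply, hsq, LinearMap.zero_apply, smul_zero, add_zero]
        exact hda) (by
        rw [← hf]
        simp only [map_add, map_smul, LinearMap.add_apply, LinearMap.smul_apply, smul_eq_mul, e1, e2, e4]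
        linarith) (by
        rw [← hf]
        have g1 : TR D f D = TR f D D := s12 _ _ _
        have g2 : TR D D f = TR f D D := by rw [s23, g1]
        simp only [map_add, map_smul, LinearMap.add_apply, LinearMap.smul_apply, smul_eq_mul, e1, e2, e3, e4, g1, g2]
        have g3 : κ * (3 * TR f D D) = |TR D D D| := by
          rw [hκ]
          field_simp
        have g4 := neg_abs_le (TR D D D)
        linarith)
    refine ⟨κ + K, ?_⟩
    rw [add_smul, ← add_assoc]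
    exact hK
  · exact n1_core h hr hν hT hA hP hF hsq hMI hD hda hdd h1

end Pool.Agent.H86.KN
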